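import Mathlib
import Pool.Agent.KDet.SmythEx

set_option autoImplicit false

namespace Pool.Agent.Results.MP_360cb4_gt.SmythPower

open Set

/-- A class of topological spaces (the objects of a full subcategory of `Top`). -/
abbrev SpaceClass : Type 1 := ∀ (Y : Type) [TopologicalSpace Y], Prop

/-- `A ⊆ X` is `K`-determined: for every continuous `f : X → Y` into a `K`-space `Y` there is a
unique `y ∈ Y` with `cl f(A) = cl {y}`. -/
def Determined (K : SpaceClass) (X : Type) [TopologicalSpace X] (A : Set X) : Prop :=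
  ∀ (Y : Type) [TopologicalSpace Y], K Y → ∀ f : X → Y, Continuous f →
    ∃! y : Y, closure (f '' A) = closure ({y} : Set Y)

/-- `K` is a full subcategory (closed under homeomorphism) of the category of `T0` spaces which
contains all sober spaces. -/
def Admissible (K : SpaceClass) : Prop :=
  (∀ (X : Type) [TopologicalSpace X], K X → T0Space X) ∧
  (∀ (X : Type) [TopologicalSpace X], T0Space X → QuasiSober X → K X) ∧
  (∀ (X Y : Type) [TopologicalSpace X] [TopologicalSpace Y], Nonempty (X ≃ₜ Y) → K X → K Y)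

/-- The set `K(X)` of closed `K`-determined subsets of `X`. -/
def PH (K : SpaceClass) (X : Type) [TopologicalSpace X] : Type :=
  {A : Set X // IsClosed A ∧ Determined K X A}

/-- The topology of `P_H(K(X))`: its open sets are generated by (in fact, are exactly) the sets
`◇U = {A : A ∩ U ≠ ∅}` for `U` open in `X`. -/
instance PHtop (K : SpaceClass) (X : Type) [TopologicalSpace X] : TopologicalSpace (PH K X) :=
  TopologicalSpace.generateFrom {S | ∃ U : Set X, IsOpen U ∧ S = {A : PH K X | (A.1 ∩ U).Nonempty}}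

/-- `K` is adequate: `P_H(K(X))` is a `K`-space for every `T0` space `X`. -/
def Adequate (K : SpaceClass) : Prop :=
  ∀ (X : Type) [TopologicalSpace X], T0Space X → K (PH K X)

/-- The points of the Smyth power space: nonempty compact saturated subsets of `X` (saturated:
an upper set for the specialization order `x ≤ y ↔ x ∈ cl {y}`). -/
def PS (X : Type) [TopologicalSpace X] : Type :=
  {C : Set X // C.Nonempty ∧ IsCompact C ∧ ∀ x ∈ C, ∀ y : X, x ∈ closure ({y} : Set X) → y ∈ C}

/-- The upper Vietoris topology, generated by the sets `□U = {C : C ⊆ U}`, `U` open in `X`. -/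
instance PStop (X : Type) [TopologicalSpace X] : TopologicalSpace (PS X) :=
  TopologicalSpace.generateFrom {S | ∃ U : Set X, IsOpen U ∧ S = {C : PS X | C.1 ⊆ U}}

/-- `K` is a Smyth category: `P_S(X)` is a `K`-space whenever `X` is. -/
def SmythCat (K : SpaceClass) : Prop :=
  ∀ (X : Type) [TopologicalSpace X], K X → K (PS X)

/-- `Irr_c(X) = K(X)`: a closed subset of `X` is irreducible iff it is `K`-determined. -/
def DeterminedSpace (K : SpaceClass) (X : Type) [TopologicalSpace X] : Prop :=
  ∀ A : Set X, IsClosed A → (IsIrreducible A ↔ Determined K X A)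

/-! ### Proof -/

theorem sat_iff {X : Type} [TopologicalSpace X] (C : Set X) :
    (∀ x ∈ C, ∀ y : X, x ∈ closure ({y} : Set X) → y ∈ C) ↔
      (∀ x, (∀ U : Set X, IsOpen U → C ⊆ U → x ∈ U) → x ∈ C) := by
  constructor
  · intro h x hx
    by_contra hxC
    have := hx (closure {x})ᶜ isClosed_closure.isOpen_compl (by
      intro z hz hzx
      exact hxC (h z hz x hzx))
    exact this (subset_closure rfl)
  · intro h x hx y hxy
    apply h
    intro U hU hCU
    obtain ⟨w, hw, hw'⟩ := mem_closure_iff.1 hxy U hU (hCU hx)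
    rw [mem_singleton_iff.1 hw'] at hw
    exact hw

/-- the two versions of the Smyth power space are homeomorphic -/
def homeo (X : Type) [TopologicalSpace X] : Pool.Agent.KDet.PS X ≃ₜ PS X where
  toFun C := ⟨C.1, C.2.1, C.2.2.1, (sat_iff C.1).2 C.2.2.2⟩
  invFun C := ⟨C.1, C.2.1, C.2.2.1, (sat_iff C.1).1 C.2.2.2⟩
  left_inv _ := rfl
  right_inv _ := rfl
  continuous_toFun := by
    refine continuous_generateFrom_iff.2 ?_
    rintro S ⟨U, hU, rfl⟩
    exact Pool.Agent.KDet.PS_box X U hU
  continuous_invFun := by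
    refine continuous_generateFrom_iff.2 ?_
    rintro S ⟨U, hU, rfl⟩
    exact TopologicalSpace.isOpen_generateFrom_of_mem ⟨U, hU, rfl⟩

theorem det_irr (K : SpaceClass) (hK : Admissible K) (X : Type) [TopologicalSpace X] (A : Set X)
    (hA : Determined K X A) : IsIrreducible A := by
  constructor
  · obtain ⟨y, hy, _⟩ := hA Unit (hK.2.1 Unit inferInstance inferInstance) (fun _ => ()) continuous_const
    have : ((fun _ : X => ()) '' A).Nonempty := by
      rw [← closure_nonempty_iff, hy]
      exact ⟨y, subset_closure rfl⟩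
    exact this.of_image
  · intro U V hU hV hAU hAV
    have hq : QuasiSober (Prop × Prop) := by
      constructor
      intro S hS hc
      have hfin : S.Finite := Set.toFinite S
      have hcov : S ⊆ ⋃₀ ((fun a => closure ({a} : Set (Prop × Prop))) '' S) := by
        intro a ha
        exact ⟨_, ⟨a, ha, rfl⟩, subset_closure rfl⟩
      have := (isIrreducible_iff_sUnion_isClosed.1 hS)
        (hfin.image (fun a => closure ({a} : Set (Prop × Prop)))).toFinset (by
        intro z hz
        rw [Set.Finite.mem_toFinset] at hz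
        obtain ⟨a, _, rfl⟩ := hz
        exact isClosed_closure) (by rw [Set.Finite.coe_toFinset]; exact hcov)
      obtain ⟨z, hz, hSz⟩ := this
      rw [Set.Finite.mem_toFinset] at hz
      obtain ⟨a, ha, rfl⟩ := hz
      exact ⟨a, Subset.antisymm (hc.closure_subset_iff.2 (singleton_subset_iff.2 ha)) hSz⟩
    obtain ⟨y, hy, _⟩ := hA (Prop × Prop) (hK.2.1 _ inferInstance hq) (fun x => (x ∈ U, x ∈ V))
      ((isOpen_iff_continuous_mem.1 hU).prodMk (isOpen_iff_continuous_mem.1 hV))
    rw [Pool.Agent.KDet.closure_eq_iff] at hy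
    have o1 : IsOpen {p : Prop × Prop | p.1} :=
      isOpen_iff_continuous_mem.2 continuous_fst
    have o2 : IsOpen {p : Prop × Prop | p.2} :=
      isOpen_iff_continuous_mem.2 continuous_snd
    obtain ⟨a, haA, haU⟩ := hAU
    obtain ⟨b, hbA, hbV⟩ := hAV
    have h1 := (hy _ o1).1 ⟨_, haU, ⟨a, haA, rfl⟩⟩
    have h2 := (hy _ o2).1 ⟨_, hbV, ⟨b, hbA, rfl⟩⟩
    obtain ⟨_, ⟨h3, h4⟩, ⟨c, hcA, rfl⟩⟩ := (hy _ (o1.inter o2)).2 ⟨h1, h2⟩
    exact ⟨c, hcA, h3, h4⟩

theorem adm : Admissible (fun Y _ => Pool.Agent.KDet.KK Y) :=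
  ⟨fun _ _ h => h.1, fun Y _ h0 hs => Pool.Agent.KDet.KK_sober Y h0 hs,
    fun X Y _ _ e h => Pool.Agent.KDet.KK_homeo X Y e.some h⟩

/-- There are an adequate Smyth category `K` and a `K`-determined `T0` space `X` such that some
irreducible closed subset of the Smyth power space `P_S(X)` is not `K`-determined; in particular
`P_S(X)` is not `K`-determined. -/
theorem result :
    ∃ K : SpaceClass, Admissible K ∧ Adequate K ∧ SmythCat K ∧
      ∃ (X : Type) (_ : TopologicalSpace X), T0Space X ∧ DeterminedSpace K X ∧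
        (∃ 𝒜 : Set (PS X), IsClosed 𝒜 ∧ IsIrreducible 𝒜 ∧ ¬ Determined K (PS X) 𝒜) ∧
        ¬ DeterminedSpace K (PS X) := by
  refine ⟨fun Y _ => Pool.Agent.KDet.KK Y, adm, ?_, ?_,
    Pool.Agent.KDet.Op Pool.Agent.KDet.Xs, inferInstance, Pool.Agent.KDet.op_t0, ?_, ?_⟩
  · intro X _ hX
    exact Pool.Agent.KDet.KK_adequate X hX
  · intro X _ hX
    exact Pool.Agent.KDet.KK_homeo _ _ (homeo X) (Pool.Agent.KDet.KK_Smyth X hX)
  · intro A hc
    exact ⟨fun hA Y _ hK f hf => Pool.Agent.KDet.Op_det A hA hc Y hK f hf, fun hA => det_irr _ adm _ A hA⟩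
  · have main : ∃ 𝒜 : Set (PS (Pool.Agent.KDet.Op Pool.Agent.KDet.Xs)), IsClosed 𝒜 ∧ IsIrreducible 𝒜 ∧
        ¬ Determined (fun Y _ => Pool.Agent.KDet.KK Y) (PS (Pool.Agent.KDet.Op Pool.Agent.KDet.Xs)) 𝒜 := by
      set e := homeo (Pool.Agent.KDet.Op Pool.Agent.KDet.Xs) with he
      refine ⟨e '' closure (range Pool.Agent.KDet.Kx), e.isClosedMap _ isClosed_closure,
        Pool.Agent.KDet.irr_A.image e e.continuous.continuousOn, ?_⟩
      intro hdet
      obtain ⟨y, hy, _⟩ := hdet Pool.Agent.KDet.Zt Pool.Agent.KDet.KK_Zt (Pool.Agent.KDet.fz ∘ e.symm)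
        (Pool.Agent.KDet.fz_cont.comp e.symm.continuous)
      refine Pool.Agent.KDet.not_det ⟨y, ?_⟩
      rw [← hy, image_comp]
      have : (e.symm '' (e '' closure (range Pool.Agent.KDet.Kx))) = closure (range Pool.Agent.KDet.Kx) := by
        ext z
        constructor
        · rintro ⟨_, ⟨w, hw, rfl⟩, rfl⟩
          rw [e.symm_apply_apply]; exact hw
        · intro hz
          exact ⟨e z, ⟨z, hz, rfl⟩, e.symm_apply_apply z⟩
      rw [this]
    refine ⟨main, ?_⟩
    obtain ⟨𝒜, h1, h2, h3⟩ := main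
    intro h
    exact h3 ((h 𝒜 h1).1 h2)

end Pool.Agent.Results.MP_360cb4_gt.SmythPower
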